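import Pool.Agent.J6H9.EV.Stm

/-!
# Project EV (helper9), module SUB1 (helper61)
-/

set_option autoImplicit false

namespace Pool.Agent.J6H61.EV

open Filter Topology Pool.Agent.J6H9.EU Pool.Agent.J6H9.EV

open Classical in
private theorem key (f : ℕ → ℝ) (d : ℕ → ℕ) (hf : ∀ n, 0 < f n) (hd : ∀ n, 0 < d n)
    (hlow : ∀ n, ∀ x ∈ D d n, f (st d n) ≤ f x) (hup : ∀ n, ∀ x ∈ D d n, f x ≤ 2 * f (st d n))
    (hbig : ∀ n, F f (st d n + 1) ≤ 2 * (d n * f (st d n))) (A : Set ℕ) (n : ℕ) :
    ((A ∩ D d n).ncard : ℝ) / d n ≤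
      4 * ((∑ i ∈ (Finset.range (st d (n + 1))).filter (· ∈ A), f i) /
        ∑ i ∈ Finset.range (st d (n + 1)), f i) := by
  have hst : st d (n + 1) = st d n + d n := Finset.sum_range_succ _ _
  have hdn := hd n
  have hdn' : (0 : ℝ) < d n := by exact_mod_cast hdn
  have hcard : (A ∩ D d n).ncard = ((Finset.Ico (st d n) (st d n + d n)).filter (· ∈ A)).card := by
    rw [← Set.ncard_coe_finset]
    congr 1
    ext x
    simp only [D, Set.mem_inter_iff, Set.mem_Ico, Finset.coe_filter, Finset.mem_Ico, Set.mem_ofPred_eq]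
    tauto
  have hsub : (Finset.Ico (st d n) (st d n + d n)).filter (· ∈ A) ⊆
      (Finset.range (st d (n + 1))).filter (· ∈ A) := by
    intro x hx
    rw [Finset.mem_filter, Finset.mem_Ico] at hx
    rw [Finset.mem_filter, Finset.mem_range, hst]
    exact ⟨hx.1.2, hx.2⟩
  have h1 : ((A ∩ D d n).ncard : ℝ) * f (st d n) ≤
      ∑ i ∈ (Finset.range (st d (n + 1))).filter (· ∈ A), f i := by
    refine le_trans ?_ (Finset.sum_le_sum_of_subset_of_nonneg hsub fun i _ _ => (hf i).le)
    rw [hcard, ← nsmul_eq_mul]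
    refine Finset.card_nsmul_le_sum _ _ _ fun x hx => ?_
    rw [Finset.mem_filter, Finset.mem_Ico] at hx
    exact hlow n x hx.1
  have h2 : ∑ i ∈ Finset.range (st d (n + 1)), f i ≤ 4 * (d n * f (st d n)) := by
    obtain ⟨k, hk⟩ : ∃ k, d n = k + 1 := ⟨d n - 1, by omega⟩
    have e1 : st d (n + 1) = (st d n + 1) + k := by omega
    rw [e1, Finset.sum_range_add]
    have h3 : ∑ x ∈ Finset.range k, f (st d n + 1 + x) ≤ k * (2 * f (st d n)) := by
      rw [← nsmul_eq_mul]
      refine (Finset.sum_le_card_nsmul _ _ (2 * f (st d n)) fun x hx => ?_).trans (le_of_eq ?_)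
      · rw [Finset.mem_range] at hx
        exact hup n _ ⟨by omega, by omega⟩
      · rw [Finset.card_range]
    have h4 := hbig n
    unfold F at h4
    have h5 : (d n : ℝ) = k + 1 := by rw [hk]; push_cast; ring
    have h6 := (hf (st d n)).le
    rw [h5] at h4 ⊢
    nlinarith
  have hpos : 0 < ∑ i ∈ Finset.range (st d (n + 1)), f i := by
    refine Finset.sum_pos (fun i _ => hf i) ⟨0, ?_⟩
    rw [Finset.mem_range]
    omega
  have h6 := hf (st d n)
  rw [← mul_div_assoc, div_le_div_iff₀ hdn' hpos]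
  have h7 : (0 : ℝ) ≤ ((A ∩ D d n).ncard : ℝ) := Nat.cast_nonneg _
  calc ((A ∩ D d n).ncard : ℝ) * ∑ i ∈ Finset.range (st d (n + 1)), f i
      ≤ ((A ∩ D d n).ncard : ℝ) * (4 * (d n * f (st d n))) := mul_le_mul_of_nonneg_left h2 h7
    _ = 4 * (((A ∩ D d n).ncard : ℝ) * f (st d n)) * d n := by ring
    _ ≤ 4 * (∑ i ∈ (Finset.range (st d (n + 1))).filter (· ∈ A), f i) * d n := by
      have := mul_le_mul_of_nonneg_left h1 (by norm_num : (0 : ℝ) ≤ 4)
      exact mul_le_mul_of_nonneg_right this hdn'.le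

theorem main : Pool.Agent.J6H9.EV.S_SUB1 := by
  intro f d hf hd hlow hup hbig A hA
  have hge : ∀ n, n ≤ st d n := by
    intro n
    induction n with
    | zero => exact Nat.zero_le _
    | succ n ih =>
      have h1 : st d (n + 1) = st d n + d n := Finset.sum_range_succ _ _
      have h2 := hd n
      omega
  have htop : Tendsto (fun n => st d (n + 1)) atTop atTop :=
    tendsto_atTop_mono (fun n => (Nat.le_succ n).trans (hge (n + 1))) tendsto_id
  have hA' : Tendsto _ atTop (𝓝 (0 : ℝ)) := hA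
  have h2 := (hA'.comp htop).const_mul 4
  rw [mul_zero] at h2
  change Tendsto (fun n => ((A ∩ D d n).ncard : ℝ) / d n) atTop (𝓝 0)
  refine squeeze_zero (fun n => by positivity) (fun n => ?_) h2
  exact key f d hf hd hlow hup hbig A n

end Pool.Agent.J6H61.EV
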