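import Pool.Agent.J6H9.EV.Stm

/-!
# Project EV (helper9), module SUB2 (helper61)
-/

set_option autoImplicit false

namespace Pool.Agent.J6H61.EV2

open Filter Topology Pool.Agent.J6H9.EU Pool.Agent.J6H9.EV

open Classical in
/-- partial sums over `A` -/
private noncomputable def S (f : ℕ → ℝ) (A : Set ℕ) (n : ℕ) : ℝ := ∑ i ∈ (Finset.range n).filter (· ∈ A), f i

private theorem S_mono (f : ℕ → ℝ) (hf : ∀ n, 0 < f n) (A : Set ℕ) {m n : ℕ} (h : m ≤ n) : S f A m ≤ S f A n := by
  classical
  unfold S
  refine Finset.sum_le_sum_of_subset_of_nonneg ?_ fun i _ _ => (hf i).le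
  exact Finset.filter_subset_filter _ (Finset.range_mono h)

private theorem F_mono (f : ℕ → ℝ) (hf : ∀ n, 0 < f n) {m n : ℕ} (h : m ≤ n) : F f m ≤ F f n := by
  unfold F
  exact Finset.sum_le_sum_of_subset_of_nonneg (Finset.range_mono h) fun i _ _ => (hf i).le

private theorem step (f : ℕ → ℝ) (d : ℕ → ℕ) (hup : ∀ n, ∀ x ∈ D d n, f x ≤ 2 * f (st d n)) (A : Set ℕ) (n : ℕ) :
    S f A (st d (n + 1)) ≤ S f A (st d n) + 2 * (((A ∩ D d n).ncard : ℝ) * f (st d n)) := by
  classical
  have hst : st d (n + 1) = st d n + d n := Finset.sum_range_succ _ _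
  have hcard : (A ∩ D d n).ncard = ((Finset.Ico (st d n) (st d n + d n)).filter (· ∈ A)).card := by
    rw [← Set.ncard_coe_finset]
    congr 1
    ext x
    simp only [D, Set.mem_inter_iff, Set.mem_Ico, Finset.coe_filter, Finset.mem_Ico, Set.mem_ofPred_eq]
    tauto
  have h1 : S f A (st d (n + 1)) = S f A (st d n) +
      ∑ i ∈ (Finset.Ico (st d n) (st d n + d n)).filter (· ∈ A), f i := by
    unfold S
    rw [hst, Finset.sum_filter, Finset.sum_filter, Finset.sum_filter,
      Finset.sum_range_add_sum_Ico (fun i => if i ∈ A then f i else 0) (Nat.le_add_right _ _)]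
  rw [h1]
  have h2 : ∑ i ∈ (Finset.Ico (st d n) (st d n + d n)).filter (· ∈ A), f i ≤
      ((Finset.Ico (st d n) (st d n + d n)).filter (· ∈ A)).card • (2 * f (st d n)) := by
    refine Finset.sum_le_card_nsmul _ _ _ fun x hx => ?_
    rw [Finset.mem_filter, Finset.mem_Ico] at hx
    exact hup n x hx.1
  rw [← hcard, nsmul_eq_mul] at h2
  linarith

private theorem stepF (f : ℕ → ℝ) (d : ℕ → ℕ) (hlow : ∀ n, ∀ x ∈ D d n, f (st d n) ≤ f x) (n : ℕ) :
    F f (st d n) + (d n : ℝ) * f (st d n) ≤ F f (st d (n + 1)) := by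
  have hst : st d (n + 1) = st d n + d n := Finset.sum_range_succ _ _
  have h1 : F f (st d (n + 1)) = F f (st d n) + ∑ i ∈ Finset.Ico (st d n) (st d n + d n), f i := by
    unfold F
    rw [hst, Finset.sum_range_add_sum_Ico f (Nat.le_add_right _ _)]
  have h2 : (Finset.Ico (st d n) (st d n + d n)).card • f (st d n) ≤
      ∑ i ∈ Finset.Ico (st d n) (st d n + d n), f i := by
    refine Finset.card_nsmul_le_sum _ _ _ fun x hx => ?_
    rw [Finset.mem_Ico] at hx
    exact hlow n x hx
  rw [Nat.card_Ico, nsmul_eq_mul, Nat.add_sub_cancel_left] at h2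
  linarith

theorem main : Pool.Agent.J6H9.EV.S_SUB2 := by
  intro f d hf hd hF hlow hup hsmall A hA
  have hst : ∀ n, st d (n + 1) = st d n + d n := fun n => Finset.sum_range_succ _ _
  have hge : ∀ n, n ≤ st d n := by
    intro n
    induction n with
    | zero => exact Nat.zero_le _
    | succ n ih =>
      have h1 := hst n
      have h2 := hd n
      omega
  have hstm : Monotone (st d) := monotone_nat_of_le_succ fun n => by rw [hst n]; omega
  have hA' : Tendsto (fun n => ((A ∩ D d n).ncard : ℝ) / d n) atTop (𝓝 0) := hA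
  have hF' : ∀ n, 0 < n → 0 < F f n := by
    intro n hn
    unfold F
    exact Finset.sum_pos (fun i _ => hf i) ⟨0, Finset.mem_range.mpr hn⟩
  have hS0 : ∀ n, 0 ≤ S f A n := by
    classical
    intro n
    unfold S
    exact Finset.sum_nonneg fun i _ => (hf i).le
  change Tendsto (fun n => S f A n / F f n) atTop (𝓝 0)
  refine tendsto_order.2 ⟨fun a ha => ?_, fun a ha => ?_⟩
  · filter_upwards [eventually_gt_atTop 0] with n hn
    exact lt_of_lt_of_le ha (div_nonneg (hS0 n) (hF' n hn).le)
  · obtain ⟨i0, hi0⟩ := eventually_atTop.1 ((tendsto_order.1 hA').2 (a / 8) (by positivity))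
    have hr : ∀ k, i0 ≤ k → ((A ∩ D d k).ncard : ℝ) * f (st d k) ≤ a / 8 * (d k * f (st d k)) := by
      intro k hk
      have h1 := (hi0 k hk).le
      have h2 : (0 : ℝ) < d k := by exact_mod_cast hd k
      rw [div_le_iff₀ h2] at h1
      have := mul_le_mul_of_nonneg_right h1 (hf (st d k)).le
      linarith
    have hind : ∀ j, S f A (st d (i0 + j)) ≤ S f A (st d i0) + 2 * (a / 8) * F f (st d (i0 + j)) := by
      intro j
      induction j with
      | zero =>
        have : 0 ≤ F f (st d (i0 + 0)) := Finset.sum_nonneg fun i _ => (hf i).le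
        have h2 : 0 ≤ 2 * (a / 8) * F f (st d (i0 + 0)) := by positivity
        simpa using h2
      | succ j ih =>
        have h1 := step f d hup A (i0 + j)
        have h2 := stepF f d hlow (i0 + j)
        have h3 := hr (i0 + j) (by omega)
        have h4 := mul_le_mul_of_nonneg_left h2 (by positivity : (0 : ℝ) ≤ 2 * (a / 8))
        rw [← add_assoc]
        linarith
    have hev : ∀ᶠ n in atTop, S f A (st d i0) * 8 / a + 1 ≤ F f n := hF.eventually_ge_atTop _
    filter_upwards [hev, eventually_gt_atTop (st d i0)] with N hN hN'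
    have hex : ∃ k, N ≤ st d (k + 1) := ⟨N, (hge N).trans (hstm (Nat.le_succ N))⟩
    classical
    obtain ⟨k, hk1, hk2⟩ : ∃ k, N ≤ st d (k + 1) ∧ ∀ m < k, ¬ N ≤ st d (m + 1) :=
      ⟨Nat.find hex, Nat.find_spec hex, fun m hm => Nat.find_min hex hm⟩
    have hki : i0 ≤ k := by
      by_contra hlt
      have h1 : k + 1 ≤ i0 := by omega
      have h2 := hstm h1
      omega
    have hkN : st d k < N := by
      rcases Nat.eq_zero_or_pos k with h0 | h0
      · subst h0
        have : st d 0 = 0 := by simp [st]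
        omega
      · have h1 := hk2 (k - 1) (by omega)
        rw [Nat.sub_add_cancel h0] at h1
        omega
    obtain ⟨j, rfl⟩ : ∃ j, k = i0 + j := ⟨k - i0, by omega⟩
    have e1 := S_mono f hf A hk1
    have e2 := step f d hup A (i0 + j)
    have e3 := hr (i0 + j) (by omega)
    have e4 := hind j
    have e5 := hsmall (i0 + j)
    have e6 : F f (st d (i0 + j)) ≤ F f N := F_mono f hf hkN.le
    have e7 : F f (st d (i0 + j) + 1) ≤ F f N := F_mono f hf hkN
    have e8 : 0 < F f N := hF' N (by omega)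
    rw [div_lt_iff₀ e8]
    have e9 : S f A (st d i0) ≤ a / 8 * (F f N - 1) := by
      have h1 : S f A (st d i0) * 8 / a ≤ F f N - 1 := by linarith
      rw [div_le_iff₀ ha] at h1
      linarith
    have e10 : a / 8 * (d (i0 + j) * f (st d (i0 + j))) ≤ a / 8 * (2 * F f N) :=
      mul_le_mul_of_nonneg_left (by linarith) (by positivity)
    have e11 : 2 * (a / 8) * F f (st d (i0 + j)) ≤ 2 * (a / 8) * F f N :=
      mul_le_mul_of_nonneg_left e6 (by positivity)
    nlinarith

end Pool.Agent.J6H61.EV2
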